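import Pool.Agent.TH18.VS.Pres2

/-!
The Virtual Surjections Conjecture: if every factor is of type `F_k` (`k ≥ 2`), then every subgroup
of the direct product that virtually surjects to `k`-tuples of factors is of type `F_k`.
-/

set_option autoImplicit false

namespace Pool.Agent.Results.MP_d943a5_al.VirtualSurjections

/-- `G` has a finite presentation. -/
def FinitelyPresented (G : Type) [Group G] : Prop :=
  ∃ (r : ℕ) (f : FreeGroup (Fin r) →* G) (S : Finset (FreeGroup (Fin r))),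
    Function.Surjective f ∧ f.ker = Subgroup.normalClosure (↑S : Set (FreeGroup (Fin r)))

/-- `G` is of type `FP_m` over `ℤ`: there are free `ℤG`-modules of finite rank and maps
`F_m → ⋯ → F_1 → F_0 → ℤ → 0`, exact at `ℤ` and at `F_0, …, F_{m-1}`; here `F_i = (ℤG)^{k i}` and the
map to `ℤ` is the sum of the augmentations of the coordinates. -/
def TypeFP (m : ℕ) (G : Type) [Group G] : Prop :=
  ∃ (k : ℕ → ℕ) (ε : MonoidAlgebra ℤ G →+* ℤ)
    (d : ∀ i : ℕ, (Fin (k (i + 1)) → MonoidAlgebra ℤ G) →ₗ[MonoidAlgebra ℤ G]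
      (Fin (k i) → MonoidAlgebra ℤ G)),
    (∀ g : G, ε (MonoidAlgebra.of ℤ G g) = 1) ∧
    (∃ x : Fin (k 0) → MonoidAlgebra ℤ G, ∑ j, ε (x j) = 1) ∧
    (0 < m → ∀ x : Fin (k 0) → MonoidAlgebra ℤ G,
      (∑ j, ε (x j) = 0 ↔ x ∈ LinearMap.range (d 0))) ∧
    (∀ j : ℕ, j + 2 ≤ m → LinearMap.range (d (j + 1)) = LinearMap.ker (d j))

/-- `G` is of type `F_m`, for `m ≥ 2`: finitely presented and of type `FP_m`. -/
def TypeF (m : ℕ) (G : Type) [Group G] : Prop := FinitelyPresented G ∧ TypeFP m G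

open Pool.Agent.TH18 Pool.Agent.TH18.NN Pool.Agent.TH18.VS

theorem fp_of_type {m : ℕ} {G : Type} [Group G] (h : TypeFP m G) : FPg m G := by
  obtain ⟨k, ε, d, he, hone, hex0, hex⟩ := h
  have hε : ∀ x, ε x = Pool.Agent.TH18.augR G x := by
    intro x
    induction x using MonoidAlgebra.induction_on with
    | of g => rw [he, Pool.Agent.TH18.augR_of]
    | add a b ha hb => rw [map_add, map_add, ha, hb]
    | smul r a ha => rw [map_zsmul, map_zsmul, ha]
  have htot : ∀ x : Fin (k 0) → MonoidAlgebra ℤ G, ∑ j, ε (x j) = Pool.Agent.TH18.NN.tot x :=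
    fun x => Finset.sum_congr rfl fun i _ => hε _
  let F : NRes G m := by
    refine ⟨k, d, ?_, ?_, ?_⟩
    · obtain ⟨x, hx⟩ := hone
      exact ⟨x, by rw [← htot]; exact hx⟩
    · intro hl x
      rw [← htot]
      exact hex0 hl x
    · intro j hj x
      have h3 := hex j hj
      constructor
      · intro hx
        have : x ∈ LinearMap.ker (d j) := hx
        rw [← h3] at this
        exact this
      · intro hx
        have : x ∈ LinearMap.range (d (j + 1)) := hx
        rw [h3] at this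
        exact this
  exact F.fpm

theorem type_of_fp {m : ℕ} {G : Type} [Group G] (h : FPg (m + 1) G) : TypeFP (m + 1) G := by
  obtain ⟨F⟩ := fpm_res h
  refine ⟨F.k, augR _, F.d, augR_of _, F.one, F.ex0, ?_⟩
  intro j hj
  ext x
  exact (F.ex j hj x).symm

/-- **The Virtual Surjections Conjecture.** -/
theorem result (n k : ℕ) (hk : 2 ≤ k) (hkn : k ≤ n) (Γ : Fin n → Type) [∀ i, Group (Γ i)]
    (hΓ : ∀ i, TypeF k (Γ i)) (P : Subgroup (∀ i, Γ i))
    (hP : ∀ J : Finset (Fin n), J.card = k →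
      (P.map (MonoidHom.pi (fun j : ↥J => Pi.evalMonoidHom Γ (j : Fin n)))).index ≠ 0) :
    TypeF k P := by
  classical
  have hv : VSur k Finset.univ P := by
    intro i _ J _ hiJ hc
    have h1 : (insert i J).card ≤ k := by
      rw [Finset.card_insert_of_notMem hiJ]; exact hc
    obtain ⟨J', hJJ', _, hJ'⟩ := Finset.exists_subsuperset_card_eq
      (Finset.subset_univ (insert i J)) h1 (by rw [Finset.card_univ, Fintype.card_fin]; exact hkn)
    have hi : i ∈ J' := hJJ' (Finset.mem_insert_self _ _)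
    let pr : (∀ i, Γ i) →* (∀ j : ↥J', Γ j) :=
      MonoidHom.pi (fun j : ↥J' => Pi.evalMonoidHom Γ (j : Fin n))
    let sg : Γ i →* (∀ j : ↥J', Γ j) := MonoidHom.mulSingle (fun j : ↥J' => Γ j) ⟨i, hi⟩
    have h2 : (P.map pr).FiniteIndex := ⟨hP J' hJ'⟩
    have h3 : ((P.map pr).comap sg).FiniteIndex := by
      refine ⟨?_⟩
      rw [Subgroup.index_comap]
      exact (Subgroup.isFiniteRelIndex_of_finiteIndex (H := P.map pr)).relIndex_ne_zero
    refine Subgroup.finiteIndex_of_le (H := (P.map pr).comap sg) ?_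
    intro g hg
    obtain ⟨x, hx, hxg⟩ := hg
    have h4 : ∀ j : ↥J', x j = (Pi.mulSingle (⟨i, hi⟩ : ↥J') g : ∀ j : ↥J', Γ j) j :=
      fun j => congrFun hxg j
    refine ⟨x, ⟨hx, fun j hj => ?_⟩, ?_⟩
    · have h5 := h4 ⟨j, hJJ' (Finset.mem_insert_of_mem hj)⟩
      rw [Pi.mulSingle_eq_of_ne] at h5
      · exact h5
      · intro h6
        have : j = i := congrArg Subtype.val h6
        exact hiJ (this ▸ hj)
    · have h5 := h4 ⟨i, hi⟩
      rw [Pi.mulSingle_eq_same] at h5
      exact h5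
  have hc : CN Finset.univ P := cn_of_vs hk hv
  have hs : Supp Finset.univ P := fun x _ i hi => absurd (Finset.mem_univ i) hi
  obtain ⟨l, rfl⟩ : ∃ l, k = l + 1 := ⟨k - 1, by omega⟩
  refine ⟨?_, type_of_fp (vsc_aux _ _ _ P rfl hs hv hc fun i _ => fp_of_type (hΓ i).2)⟩
  refine vsc_pres _ Finset.univ P rfl hs ?_ hc
    (fun i _ => (fp_of_type (hΓ i).2).mono hk) (fun i _ => (hΓ i).1)
  intro i hi J hJ hiJ hJc
  exact hv i hi J hJ hiJ (by omega)

end Pool.Agent.Results.MP_d943a5_al.VirtualSurjections
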